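import Pool.Agent.Helper371.RhoO

set_option autoImplicit false

namespace Pool.Agent.Results.MP_7d9ca0_co.RhoFormula

open Pool.Agent.Helper371

/-- For every natural number `d` there are finitely many isomorphism classes of `d`-regular
S-graphs of diameter four, and their number `ρ(d)` is `0` for `d < 2` and `(R(d) + S(d)) / 2` for
`d ≥ 2`, where `R(d)` and `S(d)` are explicit finite sums over partitions. -/
theorem result (d : ℕ) :
    Finite (IsoClasses d) ∧ (rho d : ℚ) = if d < 2 then 0 else (RR d + SS d) / 2 := by
  refine ⟨Rho.finite_classes d, ?_⟩
  split_ifs with h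
  · rw [Rho.rho_small (by omega)]
    norm_num
  · exact Rho.rho_formula (by omega)

end Pool.Agent.Results.MP_7d9ca0_co.RhoFormula
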